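import Pool.Agent.Run7.h822.MT.Two

/-!
# Comparison of the motivic t-structures for two primes

The problem asks for a single t-structure for which all realisations are t-exact. Suppose only that
for two realisations `R` and `R'` (for example at two primes) there are t-structures `t` and `t'`,
each non-degenerate, compatible with the tensor product, and exact for its own realisation. Nothing
is assumed to relate `R` and `R'`, or `t` and `t'`. It is shown that `t` and `t'` differ at most by a
regrading:

* the truncations for `t'` of an object of the heart of `t` lie in the heart of `t`;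
* each simple object of the heart of `t` is concentrated in one degree for `t'`, an even one;
* all objects have the same total Betti number for `R` and for `R'`;
* if each simple object of the heart of `t` is self-dual up to an object of the heart of `t'` (for
  motives: a polarisation with values in a Tate twist), then `t = t'`.
-/

set_option autoImplicit false

open CategoryTheory Limits MonoidalCategory Pretriangulated Triangulated

universe v u w w'

namespace Pool.Agent.Results.MP_6d0ce9_ag.TwoTStructures

open Pool.Agent.Y116.MT Pool.Agent.V1178.MT Run7.h822.MT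

/-- Let `t` be motivic for `R` and let `t'` be motivic for `R'`. (1) If `A ⟶ X ⟶ B` is the
truncation of `X` for `t'` in degrees `≤ n` and `> n`, and `X` is in the heart of `t`, so are `A`
and `B`. (2) A simple object of the heart of `t` is in one even degree for `t'`. (3) The sum of the
Betti numbers of any object is the same for `R` and for `R'`. (4) If each simple object `X` of the
heart of `t` is isomorphic to `Xᘁ ⊗ U` for some `U` in the heart of `t'`, then `t = t'`. -/
theorem result {C : Type u} [Category.{v} C] [Preadditive C] [HasZeroObject C] [HasShift C ℤ]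
    [∀ n : ℤ, (shiftFunctor C n).Additive] [Pretriangulated C] [IsTriangulated C]
    [MonoidalCategory C] [SymmetricCategory C] [TensorTriangulated C] [MonoidalPreadditive C]
    [RightRigidCategory C] (hid : ∀ e : 𝟙_ C ⟶ 𝟙_ C, e ≫ e = e → e = 0 ∨ e = 𝟙 _)
    {E : Type w} [Field E] [CharZero E] {E' : Type w'} [Field E'] [CharZero E']
    (R : Realisation C E) (R' : Realisation C E') (t t' : TStructure C)
    (h : IsMotivic t (fun _ : Unit => R)) (h' : IsMotivic t' (fun _ : Unit => R')) :
    (∀ (X A B : C) (f : A ⟶ X) (g : X ⟶ B) (d : B ⟶ A⟦(1 : ℤ)⟧) (n : ℤ),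
      Triangle.mk f g d ∈ distTriang C → Hrt t X → t'.le n A → t'.ge (n + 1) B →
        Hrt t A ∧ Hrt t B) ∧
    (∀ X : C, SimpleHrt t X → ∃ j : ℤ, Even j ∧ t'.le j X ∧ t'.ge j X) ∧
    (∀ X : C, ∑ᶠ i : ℤ, bet R X i = ∑ᶠ i : ℤ, bet R' X i) ∧
    ((∀ X : C, SimpleHrt t X → ∃ U : C, Hrt t' U ∧ Nonempty (X ≅ Xᘁ ⊗ U)) →
      ∀ (X : C) (n : ℤ), (t.le n X ↔ t'.le n X) ∧ (t.ge n X ↔ t'.ge n X)) := by
  have ht : TensorCompat t := ⟨h.tensor_le, h.tensor_ge⟩
  have hu : Hrt t (𝟙_ C) := unit_hrt ht h.nondeg_le h.nondeg_ge
  have hR : CE t R := ⟨(truncations_of_motivic hid h).1, ⟨h.exact_le (), h.exact_ge ()⟩⟩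
  have ht' : TensorCompat t' := ⟨h'.tensor_le, h'.tensor_ge⟩
  have hu' : Hrt t' (𝟙_ C) := unit_hrt ht' h'.nondeg_le h'.nondeg_ge
  have hR' : CE t' R' := ⟨(truncations_of_motivic hid h').1, ⟨h'.exact_le (), h'.exact_ge ()⟩⟩
  refine ⟨?_, ?_, ?_, ?_⟩
  · intro X A B f g d n hT hX hA hB
    exact trunc_cross hR hR' ht ht' hu hu' hid hT hX n ⟨hA⟩ ⟨hB⟩
  · intro X hX
    obtain ⟨j, hj, hc⟩ := simple_cross hR hR' ht ht' hu hu' hid hX
    exact ⟨j, hj, hc.1.le, hc.2.ge⟩
  · intro X
    exact tot_cross hR hR' ht ht' hu hu' hid X
  · intro hp X n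
    exact eq_of_polarised hR hR' ht ht' hu hu' hid hp X n

end Pool.Agent.Results.MP_6d0ce9_ag.TwoTStructures
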